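import Pool.Agent.H19.OM.Stm3

set_option autoImplicit false

/-!
# Project OM: module K2 (a periodic indicator function)
-/

namespace Pool.Agent.H61.OM

open Finset Pool.Agent.H19.OM

lemma cnt_mul (p : ℕ → Prop) [DecidablePred p] (m : ℕ) (pp : Function.Periodic p m) (a q : ℕ) :
    ((Ico a (a + m * q)).filter p).card = q * m.count p := by
  induction q with
  | zero => simp
  | succ q ih =>
    have h1 : Ico a (a + m * (q + 1)) = Ico a (a + m * q) ∪ Ico (a + m * q) (a + m * q + m) := by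
      rw [Finset.Ico_union_Ico_eq_Ico (by omega) (by omega)]
      congr 1
      ring
    rw [h1, filter_union, card_union_of_disjoint, ih, Nat.filter_Ico_card_eq_of_periodic (pp := pp)]
    · ring
    · exact disjoint_filter_filter (Finset.Ico_disjoint_Ico_consecutive _ _ _)

lemma cnt_le (p : ℕ → Prop) [DecidablePred p] (m : ℕ) (pp : Function.Periodic p m) (a q r : ℕ) (hr : r ≤ m) :
    ((Ico a (a + (m * q + r))).filter p).card ≤ q * m.count p + m.count p ∧
      q * m.count p ≤ ((Ico a (a + (m * q + r))).filter p).card := by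
  constructor
  · have h1 : q * m.count p + m.count p = (q + 1) * m.count p := by ring
    rw [h1, ← cnt_mul p m pp a (q + 1)]
    refine card_le_card (filter_subset_filter _ (Finset.Ico_subset_Ico_right ?_))
    rw [Nat.mul_add]
    omega
  · rw [← cnt_mul p m pp a q]
    exact card_le_card (filter_subset_filter _ (Finset.Ico_subset_Ico_right (by omega)))

/-- module K2 -/
theorem k2 : S_K2 := by
  intro T Q N hN hQ hT
  obtain ⟨p, hp⟩ : ∃ p : ℕ → Prop, p = fun n => ∀ x ∈ T, x.2.1 ^ x.2.2 ∣ n + x.1 := ⟨_, rfl⟩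
  obtain ⟨m, hm⟩ : ∃ m, m = T.lcm fun x => x.2.1 ^ x.2.2 := ⟨_, rfl⟩
  have hmQ : m ∣ Q := by
    rw [hm]
    exact Finset.lcm_dvd fun x hx => (hT x hx).2
  have hmP : m ∣ ∏ x ∈ T, x.2.1 ^ x.2.2 := by
    rw [hm]
    exact Finset.lcm_dvd fun x hx => Finset.dvd_prod_of_mem _ hx
  have hP0 : 0 < ∏ x ∈ T, x.2.1 ^ x.2.2 := Finset.prod_pos fun x hx => pow_pos (hT x hx).1 _
  have hmle : m ≤ ∏ x ∈ T, x.2.1 ^ x.2.2 := Nat.le_of_dvd hP0 hmP
  have hm0 : 0 < m := Nat.pos_of_dvd_of_pos hmQ hQ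
  have pp : Function.Periodic p m := by
    intro n
    rw [hp]
    refine propext (forall_congr' fun x => forall_congr' fun hx => ?_)
    have h1 : x.2.1 ^ x.2.2 ∣ m := by
      rw [hm]
      exact Finset.dvd_lcm (f := fun x : ℕ × ℕ × ℕ => x.2.1 ^ x.2.2) hx
    have h2 : n + m + x.1 = n + x.1 + m := by ring
    rw [h2]
    exact (Nat.dvd_add_iff_left h1).symm
  classical
  obtain ⟨q, hq⟩ := hmQ
  have hA : ((range Q).filter (fun n => ∀ x ∈ T, x.2.1 ^ x.2.2 ∣ n + x.1)).card = q * m.count p := by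
    rw [← cnt_mul p m pp 0 q, zero_add, ← hq, ← Finset.range_eq_Ico]
    subst hp
    congr
  have hr : N % m ≤ m := (Nat.mod_lt _ hm0).le
  have hN' : m * (N / m) + N % m = N := Nat.div_add_mod N m
  have hB := cnt_le p m pp 1 (N / m) (N % m) hr
  rw [hN'] at hB
  have hI : Icc 1 N = Ico 1 (1 + N) := by
    ext x
    simp only [mem_Icc, mem_Ico]
    omega
  have hC : ((Icc 1 N).filter (fun n => ∀ x ∈ T, x.2.1 ^ x.2.2 ∣ n + x.1)).card =
      ((Ico 1 (1 + N)).filter p).card := by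
    rw [hI]
    subst hp
    congr
  rw [hA, hC]
  obtain ⟨B, hBd⟩ : ∃ B, B = ((Ico 1 (1 + N)).filter p).card := ⟨_, rfl⟩
  obtain ⟨c, hc⟩ : ∃ c, c = m.count p := ⟨_, rfl⟩
  have hcm : c ≤ m := by rw [hc]; exact Nat.count_le _
  rw [← hBd, ← hc] at hB
  rw [← hBd, ← hc]
  obtain ⟨u, hu⟩ : ∃ u, u = N / m := ⟨_, rfl⟩
  obtain ⟨r, hr'⟩ : ∃ r, r = N % m := ⟨_, rfl⟩
  rw [← hu] at hB hN'
  rw [← hr'] at hN' hr
  have hNR : (0 : ℝ) < N := by exact_mod_cast hN
  have hmR : (0 : ℝ) < m := by exact_mod_cast hm0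
  have hq0 : 0 < q := by
    rcases Nat.eq_zero_or_pos q with h | h
    · rw [h, mul_zero] at hq
      omega
    · exact h
  have hqR : (0 : ℝ) < q := by exact_mod_cast hq0
  have e1 : ((q * c : ℕ) : ℝ) / Q = c / m := by
    rw [hq]
    push_cast
    field_simp
  rw [e1]
  have hPR : (m : ℝ) ≤ ∏ x ∈ T, (x.2.1 : ℝ) ^ x.2.2 := by exact_mod_cast hmle
  have e2 : (N : ℝ) = m * u + r := by exact_mod_cast hN'.symm
  have hrR : (r : ℝ) ≤ m := by exact_mod_cast hr
  have hcR : (c : ℝ) ≤ m := by exact_mod_cast hcm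
  have hB1 : (B : ℝ) ≤ u * c + c := by exact_mod_cast hB.1
  have hB2 : (u : ℝ) * c ≤ B := by exact_mod_cast hB.2
  have e3 : (B : ℝ) / N - c / m = (B - N * (c / m)) / N := by
    field_simp
  rw [e3, abs_div, abs_of_pos hNR]
  refine div_le_div_of_nonneg_right ?_ hNR.le
  have e4 : (N : ℝ) * (c / m) = u * c + r * (c / m) := by
    rw [e2]
    field_simp
  have h5 : (c : ℝ) / m ≤ 1 := (div_le_one hmR).2 hcR
  have h6 : 0 ≤ (c : ℝ) / m := by positivity
  have h7 : (r : ℝ) * (c / m) ≤ m * 1 := mul_le_mul hrR h5 h6 hmR.le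
  have h8 : 0 ≤ (r : ℝ) * (c / m) := by positivity
  rw [e4, abs_le]
  constructor <;> linarith

end Pool.Agent.H61.OM
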