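import Pool.Agent.H19.OM.Stm4
import Pool.Agent.H59.OM.SW

/-! # Project OM (helper19): module SWC (from the proof of SW by helper59, with `B = 3 C + 1`) -/

set_option autoImplicit false

namespace Pool.Agent.H61.OM

open Finset MeasureTheory ProbabilityTheory Pool.Agent.H19.OM
open Pool.Agent.H59.OM (val_le J_single I_single reidx sqrt_add_sq)
open scoped NNReal

theorem t_SWC (hSWA : S_SWA) (hAR1 : S_AR1) (hAR2 : S_AR2) : S_SWC := by
  intro C hC
  refine ⟨Real.sqrt (18 * Real.exp (3 * (3 * C + 1)) * 36), Real.sqrt_nonneg _, ?_⟩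
  intro p k L a hp hL hk ha0 hka hLa φ hφ
  have hp0 : (0 : ℝ) < p := by exact_mod_cast hp.pos
  have ha : (0 : ℝ) < a := by exact_mod_cast ha0
  have h := hSWA (range (p ^ L p)) (nonempty_range_iff.2 (pow_pos hp.pos _).ne') k (L p)
    (fun r (i : Fin k) => val p (L p) (r + i)) a (3 * C + 1) ha0 (fun r _ i => val_le _ _ _) hLa
    (fun r _ s _ => (hAR1 p (L p) k hp r s).trans (by linarith)) φ hφ
  rw [card_range] at h
  have e1 : (fun w : Fin k → ℕ => J L {p} (fun u => φ (w + u))) =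
      fun w => (∑ r ∈ range (p ^ L p), φ (w + fun i : Fin k => val p (L p) (r + i))) / ((p ^ L p : ℕ) : ℝ) := by
    funext w
    rw [J_single]
    push_cast
    rfl
  have e2 : (fun w : Fin k → ℕ => I L {p} (fun u => φ (w + u))) =
      fun w => (∑ r ∈ Fintype.piFinset (fun _ : Fin k => range (p ^ L p)), φ (w + fun i : Fin k => val p (L p) (r i + i))) /
        ((p ^ L p : ℕ) : ℝ) ^ k := by
    funext w
    rw [I_single, ← reidx p (L p) k hp.pos (fun u => φ (w + u))]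
    push_cast
    rfl
  rw [e1, e2]
  refine h.trans ?_
  refine div_le_div_of_nonneg_right ?_ ha.le
  have h2 := hAR2 p (L p) k hp
  have h3 : (((p ^ L p : ℕ) : ℝ)) ^ 2 = ((p : ℝ) ^ L p) ^ 2 := by push_cast; rfl
  rw [h3]
  have h4 : (k : ℝ) ^ 2 / (p : ℝ) ^ 3 + k / (p : ℝ) ^ 2 =
      ((k : ℝ) / (p * Real.sqrt p)) ^ 2 + (Real.sqrt k / p) ^ 2 := by
    rw [div_pow, div_pow, mul_pow, Real.sq_sqrt hp0.le, Real.sq_sqrt (Nat.cast_nonneg k)]
    ring
  obtain ⟨E, hE⟩ : ∃ E : ℝ, E = Real.exp (3 * (3 * C + 1)) := ⟨_, rfl⟩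
  have hE0 : 0 ≤ E := by rw [hE]; exact (Real.exp_pos _).le
  rw [← hE]
  calc Real.sqrt (18 * E * ((∑ r ∈ range (p ^ L p), ∑ s ∈ range (p ^ L p),
        (∑ i : Fin k, (val p (L p) (r + i) : ℝ) * val p (L p) (s + i)) ^ 2) / ((p : ℝ) ^ L p) ^ 2))
      ≤ Real.sqrt (18 * E * (36 * ((k : ℝ) ^ 2 / (p : ℝ) ^ 3 + k / (p : ℝ) ^ 2))) := by
        apply Real.sqrt_le_sqrt
        exact mul_le_mul_of_nonneg_left h2 (by positivity)
    _ = Real.sqrt (18 * E * 36) * Real.sqrt (((k : ℝ) / (p * Real.sqrt p)) ^ 2 + (Real.sqrt k / p) ^ 2) := by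
        rw [← Real.sqrt_mul (by positivity), h4]
        congr 1
        ring
    _ ≤ Real.sqrt (18 * E * 36) * ((k : ℝ) / (p * Real.sqrt p) + Real.sqrt k / p) :=
        mul_le_mul_of_nonneg_left (sqrt_add_sq (by positivity) (by positivity)) (Real.sqrt_nonneg _)

end Pool.Agent.H61.OM
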